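import Pool.Agent.H21.T3.Stm

set_option autoImplicit false

namespace Pool.Agent.H66.T3

/-- all walks -/
def Tg (n : ℕ) : Set (Fin (n + 1) → ℤ × ℤ) := {f | f 0 = 0 ∧ Function.Injective f ∧
    ∀ i : Fin n, |(f i.castSucc).1 - (f i.succ).1| + |(f i.castSucc).2 - (f i.succ).2| = 1}

theorem bound {n : ℕ} {f : Fin (n + 1) → ℤ × ℤ} (hf : f ∈ Tg n) (i : Fin (n + 1)) :
    |(f i).1| + |(f i).2| ≤ (i : ℕ) := by
  induction i using Fin.induction with
  | zero => rw [hf.1]; simp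
  | succ i ih =>
    have h := hf.2.2 i
    have h1 : |(f i.succ).1| ≤ |(f i.castSucc).1| + |(f i.castSucc).1 - (f i.succ).1| := by
      have := abs_sub_abs_le_abs_sub (f i.succ).1 (f i.castSucc).1
      rw [abs_sub_comm (f i.castSucc).1]
      linarith
    have h2 : |(f i.succ).2| ≤ |(f i.castSucc).2| + |(f i.castSucc).2 - (f i.succ).2| := by
      have := abs_sub_abs_le_abs_sub (f i.succ).2 (f i.castSucc).2
      rw [abs_sub_comm (f i.castSucc).2]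
      linarith
    simp only [Fin.val_castSucc] at ih
    simp only [Fin.val_succ]
    push_cast
    linarith

theorem fin_Tg (n : ℕ) : (Tg n).Finite := by
  refine Set.Finite.subset (Set.Finite.pi' (fun _ : Fin (n + 1) =>
    (Set.finite_Icc ((-(n : ℤ), -(n : ℤ)) : ℤ × ℤ) ((n : ℤ), (n : ℤ))))) fun f hf i => ?_
  have h := bound hf i
  have hi : ((i : ℕ) : ℤ) ≤ n := by
    have := i.2
    omega
  have h1 := abs_le.1 (show |(f i).1| ≤ n by linarith [abs_nonneg (f i).2])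
  have h2 := abs_le.1 (show |(f i).2| ≤ n by linarith [abs_nonneg (f i).1])
  exact ⟨⟨h1.1, h2.1⟩, ⟨h1.2, h2.2⟩⟩

/-- upper half plane, and restrictions on the points of height zero -/
def Gs (n : ℕ) : Set (Fin (n + 1) → ℤ × ℤ) := {f | f ∈ Tg n ∧ ∀ i, 0 ≤ (f i).2}
def Rs (σ : ℤ) (n : ℕ) : Set (Fin (n + 1) → ℤ × ℤ) :=
  {f | f ∈ Gs n ∧ ∀ i, (f i).2 = 0 → 0 ≤ σ * (f i).1}

/-- prepend a step -/
def ext {n : ℕ} (v : ℤ × ℤ) (f : Fin (n + 1) → ℤ × ℤ) : Fin (n + 2) → ℤ × ℤ :=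
  Fin.cons 0 (fun i => f i + v)

theorem ext_one {n : ℕ} (v : ℤ × ℤ) {f : Fin (n + 1) → ℤ × ℤ} (hf : f 0 = 0) :
    ext v f 1 = v := by
  show (Fin.cons 0 (fun i => f i + v) : Fin (n + 2) → ℤ × ℤ) (Fin.succ 0) = v
  rw [Fin.cons_succ, hf, zero_add]

theorem ext_inj {n : ℕ} (v : ℤ × ℤ) : Function.Injective (ext (n := n) v) := by
  intro f g h
  have h1 := Fin.cons_right_injective (α := fun _ => ℤ × ℤ) _ h
  funext i
  exact add_right_cancel (congrFun h1 i)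

theorem ext_mem {n : ℕ} {v : ℤ × ℤ} {f : Fin (n + 1) → ℤ × ℤ} (hv : |v.1| + |v.2| = 1)
    (hv2 : 0 ≤ v.2) (hf : f ∈ Gs n) (h0 : ∀ i, f i + v ≠ 0) : ext v f ∈ Gs (n + 1) := by
  refine ⟨⟨rfl, ?_, ?_⟩, ?_⟩
  · unfold ext
    rw [Fin.cons_injective_iff]
    refine ⟨?_, ?_⟩
    · rintro ⟨i, hi⟩
      exact h0 i hi
    · intro i j hij
      exact hf.1.2.1 (add_right_cancel hij)
  · intro i
    refine Fin.cases ?_ (fun j => ?_) i
    · have e1 : ext v f (Fin.castSucc 0) = 0 := rfl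
      have e2 : ext v f (Fin.succ 0) = v := ext_one v hf.1.1
      rw [e1, e2]
      simpa using hv
    · have e1 : ext v f (Fin.castSucc j.succ) = f j.castSucc + v := by
        rw [← Fin.succ_castSucc]
        rfl
      have e2 : ext v f (Fin.succ j.succ) = f j.succ + v := rfl
      rw [e1, e2]
      have := hf.1.2.2 j
      simpa using this
  · intro i
    refine Fin.cases ?_ (fun j => ?_) i
    · exact le_rfl
    · show 0 ≤ (f j + v).2
      exact add_nonneg (hf.2 j) hv2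

theorem extN {n : ℕ} {f : Fin (n + 1) → ℤ × ℤ} (hf : f ∈ Gs n) (σ : ℤ) :
    ext (0, 1) f ∈ Rs σ (n + 1) := by
  refine ⟨ext_mem (by simp) (by norm_num) hf fun i h => ?_, fun i => ?_⟩
  · have h1 := congrArg Prod.snd h
    have h2 := hf.2 i
    simp only [Prod.snd_add, Prod.snd_zero] at h1
    omega
  · refine Fin.cases ?_ (fun j => ?_) i
    · intro _
      show 0 ≤ σ * 0
      simp
    · intro h
      have h1 : (f j).2 + 1 = 0 := h
      have h2 := hf.2 j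
      omega

theorem extE {n : ℕ} {σ : ℤ} (hσ : σ = 1 ∨ σ = -1) {f : Fin (n + 1) → ℤ × ℤ} (hf : f ∈ Rs σ n) :
    ext (σ, 0) f ∈ Rs σ (n + 1) := by
  refine ⟨ext_mem (by rcases hσ with rfl | rfl <;> simp) le_rfl hf.1 fun i h => ?_, fun i => ?_⟩
  · have h1 := congrArg Prod.fst h
    have h2 := congrArg Prod.snd h
    simp only [Prod.snd_add, Prod.snd_zero, Prod.fst_add, Prod.fst_zero, add_zero] at h1 h2
    have h3 := hf.2 i h2
    rcases hσ with rfl | rfl <;> omega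
  · refine Fin.cases ?_ (fun j => ?_) i
    · intro _
      show 0 ≤ σ * 0
      simp
    · intro h
      have h1 : (f j).2 + 0 = 0 := h
      have h2 := hf.2 j (by omega)
      show 0 ≤ σ * ((f j).1 + σ)
      rcases hσ with rfl | rfl <;> omega

theorem disj {n : ℕ} {v w : ℤ × ℤ} (h : v ≠ w) {A B : Set (Fin (n + 1) → ℤ × ℤ)}
    (hA : ∀ f ∈ A, f 0 = 0) (hB : ∀ f ∈ B, f 0 = 0) : Disjoint (ext v '' A) (ext w '' B) := by
  rw [Set.disjoint_left]
  rintro _ ⟨f, hf, rfl⟩ ⟨g, hg, hfg⟩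
  apply h
  rw [← ext_one v (hA f hf), ← hfg, ext_one w (hB g hg)]

theorem fin_Gs (n : ℕ) : (Gs n).Finite := (fin_Tg n).subset fun _ h => h.1
theorem fin_Rs (σ : ℤ) (n : ℕ) : (Rs σ n).Finite := (fin_Gs n).subset fun _ h => h.1

theorem recR {σ : ℤ} (hσ : σ = 1 ∨ σ = -1) (n : ℕ) :
    (Gs n).ncard + (Rs σ n).ncard ≤ (Rs σ (n + 1)).ncard := by
  rw [← Set.ncard_image_of_injective (Gs n) (ext_inj (0, 1)),
    ← Set.ncard_image_of_injective (Rs σ n) (ext_inj (σ, 0)),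
    ← Set.ncard_union_eq (disj (by simp) (fun f hf => hf.1.1) (fun f hf => hf.1.1.1))
      ((fin_Gs n).image _) ((fin_Rs σ n).image _)]
  refine Set.ncard_le_ncard ?_ (fin_Rs σ (n + 1))
  rintro _ (⟨f, hf, rfl⟩ | ⟨f, hf, rfl⟩)
  · exact extN hf σ
  · exact extE hσ hf

theorem recG (n : ℕ) :
    (Gs n).ncard + (Rs 1 n).ncard + (Rs (-1) n).ncard ≤ (Gs (n + 1)).ncard := by
  have d1 : Disjoint (ext (0, 1) '' Gs n) (ext (1, 0) '' Rs 1 n) :=
    disj (by simp) (fun f hf => hf.1.1) (fun f hf => hf.1.1.1)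
  have d2 : Disjoint (ext (0, 1) '' Gs n ∪ ext (1, 0) '' Rs 1 n) (ext (-1, 0) '' Rs (-1) n) := by
    rw [Set.disjoint_union_left]
    exact ⟨disj (by simp) (fun f hf => hf.1.1) (fun f hf => hf.1.1.1),
      disj (by simp) (fun f hf => hf.1.1.1) (fun f hf => hf.1.1.1)⟩
  rw [← Set.ncard_image_of_injective (Gs n) (ext_inj (0, 1)),
    ← Set.ncard_image_of_injective (Rs 1 n) (ext_inj (1, 0)),
    ← Set.ncard_image_of_injective (Rs (-1) n) (ext_inj (-1, 0)),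
    ← Set.ncard_union_eq d1 ((fin_Gs n).image _) ((fin_Rs 1 n).image _),
    ← Set.ncard_union_eq d2 (((fin_Gs n).image _).union ((fin_Rs 1 n).image _))
      ((fin_Rs (-1) n).image _)]
  refine Set.ncard_le_ncard ?_ (fin_Gs (n + 1))
  rintro _ ((⟨f, hf, rfl⟩ | ⟨f, hf, rfl⟩) | ⟨f, hf, rfl⟩)
  · exact (extN hf 1).1
  · exact (extE (Or.inl rfl) hf).1
  · exact (extE (Or.inr rfl) hf).1

theorem main (n : ℕ) : (12 / 5 : ℝ) ^ n ≤ (Gs n).ncard ∧
    7 / 10 * (12 / 5 : ℝ) ^ n ≤ (Rs 1 n).ncard ∧ 7 / 10 * (12 / 5 : ℝ) ^ n ≤ (Rs (-1) n).ncard := by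
  induction n with
  | zero =>
    have h0 : ∀ σ : ℤ, (fun _ => 0 : Fin (0 + 1) → ℤ × ℤ) ∈ Rs σ 0 := fun σ =>
      ⟨⟨⟨rfl, fun i j _ => Subsingleton.elim (α := Fin 1) i j, fun i => i.elim0⟩, fun _ => le_rfl⟩,
        fun _ _ => by simp⟩
    have h1 : 1 ≤ (Gs 0).ncard :=
      (Set.ncard_pos (fin_Gs 0)).2 ⟨_, (h0 1).1⟩
    have h2 : 1 ≤ (Rs 1 0).ncard := (Set.ncard_pos (fin_Rs 1 0)).2 ⟨_, h0 1⟩
    have h3 : 1 ≤ (Rs (-1) 0).ncard :=
      (Set.ncard_pos (fin_Rs (-1) 0)).2 ⟨_, h0 (-1)⟩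
    have h1' : (1 : ℝ) ≤ (Gs 0).ncard := by exact_mod_cast h1
    have h2' : (1 : ℝ) ≤ (Rs 1 0).ncard := by exact_mod_cast h2
    have h3' : (1 : ℝ) ≤ (Rs (-1) 0).ncard := by exact_mod_cast h3
    rw [pow_zero]
    exact ⟨h1', by linarith, by linarith⟩
  | succ n ih =>
    obtain ⟨h1, h2, h3⟩ := ih
    have g1 : ((Gs n).ncard : ℝ) + (Rs 1 n).ncard + (Rs (-1) n).ncard ≤ (Gs (n + 1)).ncard := by
      exact_mod_cast recG n
    have g2 : ((Gs n).ncard : ℝ) + (Rs 1 n).ncard ≤ (Rs 1 (n + 1)).ncard := by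
      exact_mod_cast recR (Or.inl rfl) n
    have g3 : ((Gs n).ncard : ℝ) + (Rs (-1) n).ncard ≤ (Rs (-1) (n + 1)).ncard := by
      exact_mod_cast recR (Or.inr rfl) n
    have hp : 0 < (12 / 5 : ℝ) ^ n := by positivity
    rw [pow_succ]
    exact ⟨by linarith, by linarith, by linarith⟩

theorem mus (n : ℕ) : (12 / 5 : ℝ) ^ n ≤ ((Tg n).ncard : ℝ) := by
  refine (main n).1.trans ?_
  exact_mod_cast Set.ncard_le_ncard (show Gs n ⊆ Tg n from fun f h => h.1) (fin_Tg n)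

theorem t_MUS : Pool.Agent.H21.T3.S_MUS := fun n => mus n

end Pool.Agent.H66.T3
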